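import Pool.Agent.H27.L1.H18.GZ.Targets3
import Pool.Agent.H27.L1.H34.GM.HAC

/-!
Row SHI of gz_modules (MP_52e316_nt): invariance of the integrals of scale invariant functions over
the shell.
-/

set_option autoImplicit false

namespace Pool.Agent.H27.L1.H31.GZ

open MeasureTheory Pool.Agent.H27.L1.H34.GM Pool.Agent.H27.L1.H34.GZ

theorem shi_mul {m : ℕ} (a b : Mat m) : aN (a * b) = aN a * aN b := by
  unfold aN
  rw [Matrix.det_mul, abs_mul, Real.mul_rpow (abs_nonneg _) (abs_nonneg _)]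

theorem shi_pos {m : ℕ} (a : Mat m) (h : a.det ≠ 0) : 0 < aN a := by
  unfold aN
  exact Real.rpow_pos_of_pos (abs_pos.2 h) _

theorem shi_nonneg {m : ℕ} (a : Mat m) : 0 ≤ aN a := by
  unfold aN
  exact Real.rpow_nonneg (abs_nonneg _) _

theorem shi_inv {m : ℕ} (a : Mat m) : aN (a⁻¹) = (aN a)⁻¹ := by
  unfold aN
  rw [Matrix.det_nonsing_inv, Ring.inverse_eq_inv', abs_inv, Real.inv_rpow (abs_nonneg _)]

theorem shi_smul {m : ℕ} (hm1 : 1 ≤ m) (c : ℝ) (hc : 0 < c) (z : Mat m) :
    aN (c • z) = c * aN z := by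
  unfold aN
  have hm0 : (m : ℝ) ≠ 0 := by
    have : (1 : ℝ) ≤ m := by exact_mod_cast hm1
    linarith
  rw [Matrix.det_smul, Fintype.card_fin, abs_mul, abs_pow, abs_of_pos hc,
    Real.mul_rpow (by positivity) (abs_nonneg _)]
  congr 1
  rw [← Real.rpow_natCast c m, ← Real.rpow_mul hc.le]
  rw [mul_one_div_cancel hm0, Real.rpow_one]

theorem shi_mt_smul {m : ℕ} (c : ℝ) (z : V m) : mt (c • z) = c • mt z := by
  rfl

/-- the indicator of a set of radii -/
noncomputable def ir (A : Set ℝ) (t : ℝ) : ENNReal := A.indicator 1 t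

theorem shi_meas_aN {m : ℕ} : Measurable (fun z : V m => aN (mt z)) := by
  unfold aN
  exact (hac_cont_det.measurable.abs).pow_const _

theorem shi_meas_ir {A : Set ℝ} (hA : MeasurableSet A) : Measurable (ir A) :=
  measurable_one.indicator hA

theorem shi_meas_h {m : ℕ} {A : Set ℝ} (hA : MeasurableSet A) {f : V m → ENNReal}
    (hf : Measurable f) : Measurable (fun z : V m => f z * ir A (aN (mt z))) :=
  hf.mul ((shi_meas_ir hA).comp shi_meas_aN)

theorem shi_shell_meas {m : ℕ} : MeasurableSet (Shell m) := by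
  have h : Shell m = (fun z : V m => aN (mt z)) ⁻¹' (Set.Ico 1 (Real.exp 1)) := by
    ext z
    rfl
  rw [h]
  exact shi_meas_aN measurableSet_Ico

theorem shi_shell_int {m : ℕ} (g : V m → ENNReal) :
    ∫⁻ z in Shell m, g z ∂(hm m) =
      ∫⁻ z, g z * ir (Set.Ico 1 (Real.exp 1)) (aN (mt z)) ∂(hm m) := by
  rw [← lintegral_indicator shi_shell_meas]
  refine lintegral_congr fun z => ?_
  by_cases hz : z ∈ Shell m
  · rw [Set.indicator_of_mem hz]
    have h2 : aN (mt z) ∈ Set.Ico 1 (Real.exp 1) := hz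
    unfold ir
    rw [Set.indicator_of_mem h2]
    simp
  · rw [Set.indicator_of_notMem hz]
    have h2 : aN (mt z) ∉ Set.Ico 1 (Real.exp 1) := hz
    unfold ir
    rw [Set.indicator_of_notMem h2]
    simp

/-- integrals over a set of radii -/
theorem shi_claim (hPLR : T_PLR) {m : ℕ} (hm1 : 1 ≤ m) {A : Set ℝ} (hA : MeasurableSet A)
    {f : V m → ENNReal} (hf : Measurable f)
    (hs : ∀ c : ℝ, 0 < c → ∀ z : V m, f (c • z) = f z) :
    ∫⁻ z, f z * ir A (aN (mt z)) ∂(hm m) =
      (∫⁻ z in Shell m, f z ∂(hm m)) * ∫⁻ r in Set.Ioi (0 : ℝ), ir A r * ENNReal.ofReal r⁻¹ := by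
  rw [hPLR m hm1 _ (shi_meas_h hA hf)]
  rw [← lintegral_const_mul]
  · refine setLIntegral_congr_fun measurableSet_Ioi ?_
    intro r hr
    have hr0 : 0 < r := hr
    have key : ∫⁻ z in Shell m, f ((r * (aN (mt z))⁻¹) • z) *
        ir A (aN (mt ((r * (aN (mt z))⁻¹) • z))) ∂(hm m) =
        (∫⁻ z in Shell m, f z ∂(hm m)) * ir A r := by
      rw [← lintegral_mul_const _ hf]
      refine setLIntegral_congr_fun shi_shell_meas ?_
      intro z hz
      have hz1 : 1 ≤ aN (mt z) := hz.1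
      have hz0 : 0 < aN (mt z) := by linarith
      have hc : 0 < r * (aN (mt z))⁻¹ := by positivity
      show f ((r * (aN (mt z))⁻¹) • z) * ir A (aN (mt ((r * (aN (mt z))⁻¹) • z))) = f z * ir A r
      rw [hs _ hc, shi_mt_smul, shi_smul hm1 _ hc, mul_assoc, inv_mul_cancel₀ hz0.ne', mul_one]
    show (∫⁻ z in Shell m, f ((r * (aN (mt z))⁻¹) • z) *
        ir A (aN (mt ((r * (aN (mt z))⁻¹) • z))) ∂(hm m)) * ENNReal.ofReal r⁻¹ =
        (∫⁻ z in Shell m, f z ∂(hm m)) * (ir A r * ENNReal.ofReal r⁻¹)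
    rw [key, mul_assoc]
  · exact (shi_meas_ir hA).mul (ENNReal.measurable_ofReal.comp measurable_inv)

theorem shi_log {x y : ℝ} (hx : 0 < x) (hxy : x ≤ y) (h1 : y = Real.exp 1 * x) :
    ∫⁻ r in Set.Ioc x y, ENNReal.ofReal r⁻¹ = 1 := by
  have h0 : ∀ r ∈ Set.uIcc x y, r ≠ 0 := by
    intro r hr
    rw [Set.uIcc_of_le hxy] at hr
    have := hr.1
    intro h
    rw [h] at this
    linarith
  have hint : IntervalIntegrable (fun r : ℝ => r⁻¹) volume x y := by
    refine ContinuousOn.intervalIntegrable ?_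
    exact continuousOn_inv₀.mono (fun r hr => h0 r hr)
  have h2 : ∫ r in Set.Ioc x y, r⁻¹ = 1 := by
    rw [← intervalIntegral.integral_of_le hxy]
    rw [integral_inv_of_pos hx (lt_of_lt_of_le hx hxy), h1, mul_div_assoc, div_self hx.ne', mul_one,
      Real.log_exp]
  rw [← ofReal_integral_eq_lintegral_ofReal, h2, ENNReal.ofReal_one]
  · exact (intervalIntegrable_iff_integrableOn_Ioc_of_le hxy).1 hint
  · refine (ae_restrict_iff' measurableSet_Ioc).2 (Filter.Eventually.of_forall fun r hr => ?_)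
    have h3 : 0 < r := lt_trans hx hr.1
    show 0 ≤ r⁻¹
    positivity

theorem shi_ir_int {A : Set ℝ} (hA : MeasurableSet A) (hpos : A ⊆ Set.Ioi 0) :
    ∫⁻ r in Set.Ioi (0 : ℝ), ir A r * ENNReal.ofReal r⁻¹ = ∫⁻ r in A, ENNReal.ofReal r⁻¹ := by
  have h1 : ∀ r : ℝ, ir A r * ENNReal.ofReal r⁻¹ = A.indicator (fun r => ENNReal.ofReal r⁻¹) r := by
    intro r
    unfold ir
    by_cases hr : r ∈ A
    · rw [Set.indicator_of_mem hr, Set.indicator_of_mem hr]
      simp
    · rw [Set.indicator_of_notMem hr, Set.indicator_of_notMem hr]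
      simp
  simp_rw [h1]
  rw [lintegral_indicator hA, Measure.restrict_restrict hA, Set.inter_eq_left.2 hpos]

theorem shi_two (hHAR : T_HAR) {m : ℕ} (hm1 : 1 ≤ m) (a b : Mat m) (ha : a.det ≠ 0)
    (hb : b.det ≠ 0) (h : V m → ENNReal) (hh : Measurable h) :
    ∫⁻ z, h (fun i j => (a * mt z * b) i j) ∂(hm m) = ∫⁻ z, h z ∂(hm m) := by
  obtain ⟨hA, -, -, -⟩ := hHAR m hm1
  have h1 := (hA a ha (fun z => h (hac_rm b z)) (hh.comp (hac_meas_rm b))).1
  have h2 := (hA b hb h hh).2
  calc ∫⁻ z, h (fun i j => (a * mt z * b) i j) ∂(hm m)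
      = ∫⁻ z, (fun z => h (hac_rm b z)) (fun i j => (a * mt z) i j) ∂(hm m) := rfl
    _ = ∫⁻ z, h (hac_rm b z) ∂(hm m) := h1
    _ = ∫⁻ z, h z ∂(hm m) := h2

theorem shi_meas_two {m : ℕ} (a b : Mat m) (h : V m → ENNReal) (hh : Measurable h) :
    Measurable (fun z : V m => h (fun i j => (a * mt z * b) i j)) := by
  have : (fun z : V m => h (fun i j => (a * mt z * b) i j)) =
      fun z : V m => h (hac_rm b (hac_lm a z)) := rfl
  rw [this]
  exact hh.comp ((hac_meas_rm b).comp (hac_meas_lm a))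

theorem pf_SHI (hHAR : T_HAR) (hPLR : T_PLR) : T_SHI := by
  intro m hm1 f hf hs a b ha hb
  have hc : 0 < aN a * aN b := mul_pos (shi_pos a ha) (shi_pos b hb)
  have he : (1 : ℝ) ≤ Real.exp 1 := Real.one_le_exp zero_le_one
  have he0 : (0 : ℝ) < Real.exp 1 := Real.exp_pos 1
  refine ⟨?_, ?_⟩
  · rw [shi_shell_int]
    have h1 : ∀ z : V m, ir (Set.Ico 1 (Real.exp 1)) (aN (mt z)) =
        ir (Set.Ico (aN a * aN b) (Real.exp 1 * (aN a * aN b)))
          (aN (mt ((fun i j => (a * mt z * b) i j) : V m))) := by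
      intro z
      have h2 : aN (mt ((fun i j => (a * mt z * b) i j) : V m)) = (aN a * aN b) * aN (mt z) := by
        have : mt ((fun i j => (a * mt z * b) i j) : V m) = a * mt z * b := rfl
        rw [this, shi_mul, shi_mul]
        ring
      rw [h2]
      have h3 : aN (mt z) ∈ Set.Ico 1 (Real.exp 1) ↔ (aN a * aN b) * aN (mt z) ∈
          Set.Ico (aN a * aN b) (Real.exp 1 * (aN a * aN b)) := by
        rw [Set.mem_Ico, Set.mem_Ico]
        refine and_congr ?_ ?_
        · exact (le_mul_iff_one_le_right hc).symm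
        · rw [mul_comm (Real.exp 1), mul_lt_mul_iff_right₀ hc]
      unfold ir
      by_cases h4 : aN (mt z) ∈ Set.Ico 1 (Real.exp 1)
      · rw [Set.indicator_of_mem h4, Set.indicator_of_mem (h3.1 h4)]
        rfl
      · rw [Set.indicator_of_notMem h4, Set.indicator_of_notMem (fun h => h4 (h3.2 h))]
    simp_rw [h1]
    have h5 := shi_two hHAR hm1 a b ha hb
      (fun w => f w * ir (Set.Ico (aN a * aN b) (Real.exp 1 * (aN a * aN b))) (aN (mt w)))
      (shi_meas_h measurableSet_Ico hf)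
    refine h5.trans ?_
    rw [shi_claim hPLR hm1 measurableSet_Ico hf hs, shi_ir_int measurableSet_Ico,
      setLIntegral_congr Ico_ae_eq_Ioc, shi_log hc _ rfl, mul_one]
    · exact le_mul_of_one_le_left hc.le he
    · intro r hr
      exact lt_of_lt_of_le hc hr.1
  · rw [shi_shell_int]
    have hce : 0 < (aN a * aN b) / Real.exp 1 := by positivity
    have h1 : ∀ z : V m, ir (Set.Ico 1 (Real.exp 1)) (aN (mt z)) =
        ir (Set.Ioc ((aN a * aN b) / Real.exp 1) (aN a * aN b))
          (aN (mt ((fun i j => (a * (mt z)⁻¹ * b) i j) : V m))) := by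
      intro z
      have h2 : aN (mt ((fun i j => (a * (mt z)⁻¹ * b) i j) : V m)) =
          (aN a * aN b) * (aN (mt z))⁻¹ := by
        have : mt ((fun i j => (a * (mt z)⁻¹ * b) i j) : V m) = a * (mt z)⁻¹ * b := rfl
        rw [this, shi_mul, shi_mul, shi_inv]
        ring
      rw [h2]
      have h3 : aN (mt z) ∈ Set.Ico 1 (Real.exp 1) ↔ (aN a * aN b) * (aN (mt z))⁻¹ ∈
          Set.Ioc ((aN a * aN b) / Real.exp 1) (aN a * aN b) := by
        rcases (shi_nonneg (mt z)).eq_or_lt with h0 | h0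
        · rw [← h0, inv_zero, mul_zero]
          constructor
          · intro h
            have := h.1
            linarith
          · intro h
            have := h.1
            linarith
        · rw [Set.mem_Ico, Set.mem_Ioc, and_comm, ← div_eq_mul_inv]
          refine and_congr ?_ ?_
          · exact (div_lt_div_iff_of_pos_left hc he0 h0).symm
          · rw [div_le_iff₀ h0]
            exact (le_mul_iff_one_le_right hc).symm
      unfold ir
      by_cases h4 : aN (mt z) ∈ Set.Ico 1 (Real.exp 1)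
      · rw [Set.indicator_of_mem h4, Set.indicator_of_mem (h3.1 h4)]
        rfl
      · rw [Set.indicator_of_notMem h4, Set.indicator_of_notMem (fun h => h4 (h3.2 h))]
    simp_rw [h1]
    have hh := shi_meas_h (m := m) (A := Set.Ioc ((aN a * aN b) / Real.exp 1) (aN a * aN b))
      measurableSet_Ioc hf
    obtain ⟨-, hI, -, -⟩ := hHAR m hm1
    have h6 := hI _ (shi_meas_two a b _ hh)
    have h5 := shi_two hHAR hm1 a b ha hb _ hh
    refine h6.trans (h5.trans ?_)
    rw [shi_claim hPLR hm1 measurableSet_Ioc hf hs, shi_ir_int measurableSet_Ioc,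
      shi_log hce _ _, mul_one]
    · rw [div_le_iff₀ he0]
      exact le_mul_of_one_le_right hc.le he
    · field_simp
    · intro r hr
      exact lt_trans hce hr.1

end Pool.Agent.H27.L1.H31.GZ
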